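import Mathlib

/-!
Basic definitions for the disproof of MP_071e05_an (helper171).
`D` = open unit disc, `B2` = open unit ball of `ℂ²` (as a subset of `ℂ × ℂ`).
-/

open Complex Metric Set Topology
open scoped ComplexConjugate

namespace Pool.Agent.Helper171.PB

/-- the open unit disc -/
def D : Set ℂ := Metric.ball 0 1

/-- the open unit ball of `ℂ²` -/
def B2 : Set (ℂ × ℂ) := {v | ‖v.1‖ ^ 2 + ‖v.2‖ ^ 2 < 1}

/-- complex conjugation on `ℂ²` -/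
def cj (v : ℂ × ℂ) : ℂ × ℂ := (conj v.1, conj v.2)

/-! ### normals, half planes, reflections -/

/-- normals `(t, ν)`; geometrically relevant when `ip n n = 1`. -/
abbrev Nv := ℝ × ℂ

/-- Lorentz product -/
def ip (n m : Nv) : ℝ := (n.2 * conj m.2).re - n.1 * m.1

/-- the (normalised) linear functional of the normal `n` at the point `z` of the disc -/
noncomputable def Q (n : Nv) (z : ℂ) : ℝ :=
  (2 * (z * conj n.2).re - n.1 * (1 + ‖z‖ ^ 2)) / (1 - ‖z‖ ^ 2)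

/-- reflection of the disc in the geodesic `Q n = 0` -/
noncomputable def R (n : Nv) (z : ℂ) : ℂ :=
  (n.2 * conj z - n.1) / (n.1 * conj z - conj n.2)

/-- reflection acting on normals -/
noncomputable def rf (s m : Nv) : Nv := (m.1 - 2 * ip m s * s.1, m.2 - ((2 * ip m s : ℝ) : ℂ) * s.2)

/-- closed polygon of a finite set of normals -/
def Qc (N : Finset Nv) : Set ℂ := {z | z ∈ D ∧ ∀ n ∈ N, Q n z ≤ 0}

/-- open polygon of a finite set of normals -/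
def Qo (N : Finset Nv) : Set ℂ := {z | z ∈ D ∧ ∀ n ∈ N, Q n z < 0}

/-- antiholomorphic involution of `B2` -/
structure AInv (J : ℂ × ℂ → ℂ × ℂ) : Prop where
  maps : MapsTo J B2 B2
  inv : ∀ v ∈ B2, J (J v) = v
  hol : DifferentiableOn ℂ (fun v => cj (J v)) B2

/-! ### projective action of `3 × 3` matrices -/

/-- projective action on the affine chart `v₀ ≠ 0` -/
noncomputable def act (T : Matrix (Fin 3) (Fin 3) ℂ) (v : ℂ × ℂ) : ℂ × ℂ :=
  let u := T.mulVec ![1, v.1, v.2]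
  (u 1 / u 0, u 2 / u 0)

/-- the matrix of the form `-|v₀|² + |v₁|² + |v₂|²` -/
def H3 : Matrix (Fin 3) (Fin 3) ℂ := Matrix.diagonal ![-1, 1, 1]

/-- unitary for the form `H3` -/
def Uni (T : Matrix (Fin 3) (Fin 3) ℂ) : Prop := T.conjTranspose * H3 * T = H3

/-! ### the regular right-angled polygon -/

/-- normal of the `k`-th side of the regular right-angled `p`-gon -/
noncomputable def tp (p : ℕ) : ℝ :=
  Real.sqrt (Real.cos (2 * Real.pi / p) / (1 - Real.cos (2 * Real.pi / p)))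

noncomputable def nrm (p : ℕ) (k : ℕ) : Nv :=
  (tp p, (Real.sqrt (1 + tp p ^ 2) : ℂ) * Complex.exp (((2 * k + 1) * Real.pi / p : ℝ) * I))

/-- set of the normals of the polygon -/
noncomputable def N0 (p : ℕ) : Finset Nv := (Finset.range p).image (nrm p)

noncomputable def om (p : ℕ) : ℂ := Complex.exp ((2 * Real.pi / p : ℝ) * I)

/-! ### invariants of a holomorphic map `f = (f₁, f₂)` of the disc into `B2` -/

/-- `M = 1 - |f₁|² - |f₂|²` -/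
noncomputable def MM (f : ℂ → ℂ × ℂ) (z : ℂ) : ℝ := 1 - ‖(f z).1‖ ^ 2 - ‖(f z).2‖ ^ 2

noncomputable def d1 (f : ℂ → ℂ × ℂ) (z : ℂ) : ℂ := deriv (fun x => (f x).1) z
noncomputable def d2 (f : ℂ → ℂ × ℂ) (z : ℂ) : ℂ := deriv (fun x => (f x).2) z
noncomputable def dd1 (f : ℂ → ℂ × ℂ) (z : ℂ) : ℂ := deriv (deriv (fun x => (f x).1)) z
noncomputable def dd2 (f : ℂ → ℂ × ℂ) (z : ℂ) : ℂ := deriv (deriv (fun x => (f x).2)) z

/-- `N = |f₁'|² + |f₂'|² - |f₁ f₂' - f₂ f₁'|²` -/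
noncomputable def NN (f : ℂ → ℂ × ℂ) (z : ℂ) : ℝ :=
  ‖d1 f z‖ ^ 2 + ‖d2 f z‖ ^ 2 - ‖(f z).1 * d2 f z - (f z).2 * d1 f z‖ ^ 2

/-- Wronskian `w = f₁' f₂'' - f₂' f₁''` -/
noncomputable def ww (f : ℂ → ℂ × ℂ) (z : ℂ) : ℂ := d1 f z * dd2 f z - d2 f z * dd1 f z

/-- `G = e^{2φ} = N (1-|z|²)² / M²` -/
noncomputable def GG (f : ℂ → ℂ × ℂ) (z : ℂ) : ℝ :=
  NN f z * (1 - ‖z‖ ^ 2) ^ 2 / MM f z ^ 2

/-- `cosh²` of the distance: `E(u,v) = |1 - <u,v>|² / ((1-|u|²)(1-|v|²))` -/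
noncomputable def EE (u v : ℂ × ℂ) : ℝ :=
  ‖1 - u.1 * conj v.1 - u.2 * conj v.2‖ ^ 2 /
    ((1 - ‖u.1‖ ^ 2 - ‖u.2‖ ^ 2) * (1 - ‖v.1‖ ^ 2 - ‖v.2‖ ^ 2))

/-- the properties of the base map on the closed right-angled polygon -/
structure Base (p m : ℕ) (f : ℂ → ℂ × ℂ) (T : Matrix (Fin 3) (Fin 3) ℂ) : Prop where
  hp : 5 ≤ p
  hm : 3 ≤ m
  hmp : m < p
  maps : MapsTo f (Qc (N0 p)) B2
  cont : ContinuousOn f (Qc (N0 p))
  hol : DifferentiableOn ℂ f (Qo (N0 p))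
  rot : ∀ z ∈ Qc (N0 p), f (om p * z) = (om p * (f z).1, om p ^ m * (f z).2)
  conjf : ∀ z ∈ Qc (N0 p), f (conj z) = cj (f z)
  uni : Uni T
  inv : ∀ v ∈ B2, act T (cj (act T (cj v))) = v
  side : ∀ z ∈ Qc (N0 p), Q (nrm p 0) z = 0 → act T (cj (f z)) = f z
  comm : ∀ v ∈ B2, act T (act T (act T (act T v))) = v
  rotT : ∀ v ∈ B2, act T (cj (om p * v.1, om p ^ m * v.2)) =
    (om p * (cj (act T v)).1, om p ^ m * (cj (act T v)).2)
  lower : ∀ z ∈ Qo (N0 p), 83 / 100 ≤ GG f z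
  nz : ∃ z ∈ Qo (N0 p), (f z).2 ≠ 0

end Pool.Agent.Helper171.PB
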