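import Mathlib

/-!
Hypergeometric side of the disproof of MP_071e05_an (`p = 17`, `m = 7`): definitions.
-/

open Complex Set
open scoped ComplexConjugate

namespace Pool.Agent.Helper171.PB

/-- coefficient `∏_{i<3} (a i)_k / (b i)_k` -/
noncomputable def hyp (a b : Fin 3 → ℝ) (k : ℕ) : ℝ :=
  ∏ j ∈ Finset.range k, ∏ i, (a i + j) / (b i + j)

/-- the power series -/
noncomputable def hs (a b : Fin 3 → ℝ) (z : ℂ) : ℂ := ∑' k, (hyp a b k : ℂ) * z ^ k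

/-- coefficients of `1 - √(1-z)` : `be 0 = 0`, `be 1 = 1/2`, `be (k+1) = be k (k-1/2)/(k+1)` -/
noncomputable def be (k : ℕ) : ℝ :=
  if k = 0 then 0 else (1 / 2) * ∏ j ∈ Finset.range (k - 1), ((j : ℝ) + 1 / 2) / (j + 2)

/-- `3F2`, `a = 19/102`, `e = (0, 1/17, 7/17)`, upper parameters -/
noncomputable def pa : Fin 3 → Fin 3 → ℝ :=
  ![![19 / 102, 25 / 102, 61 / 102], ![25 / 102, 31 / 102, 67 / 102], ![61 / 102, 67 / 102, 103 / 102]]

/-- lower parameters -/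
noncomputable def pb : Fin 3 → Fin 3 → ℝ :=
  ![![1, 16 / 17, 10 / 17], ![18 / 17, 1, 11 / 17], ![24 / 17, 23 / 17, 1]]

noncomputable def Phi (j : Fin 3) : ℂ → ℂ := hs (pa j) (pb j)

/-- exponents at `0` -/
noncomputable def ee : Fin 3 → ℝ := ![0, 1 / 17, 7 / 17]

/-- `Φ_j(1)` -/
noncomputable def AA (j : Fin 3) : ℝ := ∑' k, hyp (pa j) (pb j) k

/-- `Phi j z = A_j - B_j √(1-z) + O(|1-z|)` on the closed disc -/
def Exp (B : Fin 3 → ℝ) : Prop :=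
  (∀ j, 0 < B j) ∧ ∀ j, ∃ C : ℝ, ∀ z : ℂ, ‖z‖ ≤ 1 →
    ‖Phi j z - (AA j - B j * (1 - z) ^ (1 / 2 : ℂ))‖ ≤ C * ‖1 - z‖

def strip : Set ℂ := {x | |x.im| < Real.pi}

def slit : Set ℂ := {z | z.im ≠ 0 ∨ z.re < 1}

/-- solutions of the symmetric form of the equation -/
structure Sol (V : ℂ → ℂ) : Prop where
  hol : DifferentiableOn ℂ V strip
  ode : ∀ x ∈ strip,
    Complex.cosh (x / 2) * (deriv (deriv (deriv V)) x + (1913 / 13872 : ℂ) * deriv V x) +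
    Complex.sinh (x / 2) * ((3 / 4 : ℂ) * deriv (deriv V) x + (60667 / 8489664 : ℂ) * V x) = 0

/-- `V_j(x) = e^{(a/2+e_j)x} Φ_j(-e^x)`, continued to the strip -/
structure VV (V : Fin 3 → ℂ → ℂ) : Prop where
  sol : ∀ j, Sol (V j)
  real : ∀ j, ∀ x ∈ strip, V j (conj x) = conj (V j x)
  eq : ∀ j, ∀ x ∈ strip, x.re ≤ 0 →
    V j x = Complex.exp (((19 / 204 : ℝ) + ee j : ℝ) * x) * Phi j (-Complex.exp x)

/-- the form `∑ h_j v_j conj w_j` is real on the arc -/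
def RealOn (V : Fin 3 → ℂ → ℂ) (h : Fin 3 → ℝ) : Prop :=
  ∀ s t : ℝ, |s| < Real.pi → |t| < Real.pi →
    (∑ j, (h j : ℂ) * V j (s * I) * conj (V j (t * I))).im = 0

end Pool.Agent.Helper171.PB
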